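import Pool.Agent.L7h79.GR.Log
import Pool.Agent.L7h60.GR.Typ
import Pool.Agent.L7h32.GR.W
import Pool.Agent.N333.GR.Rec
import Pool.Agent.N333.GR.Big
import Pool.Agent.N333.GR.Dbl
import Pool.Agent.N333.GR.Run

/-!
# The gcd recursion for Goldbach pairs: `g_N ≥ exp (c (log N)^(1/3))` for almost all `N`

`a N` is the recursion `a_1, a_2, …` of the problem for the parameter `N` and `g N = g_N` its least zero `n ≥ 2`.
The result SlowForAlmostAll gives `g_N ≥ exp (c (log N)^(1/4))` for almost all `N`, where the first `2 ^ h` gcds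
add up to at most `2 ^ (C h ^ 3)`, if `X ≥ 2 ^ (C h ^ 4)`. Here: the first `2 ^ h` gcds add up to at most
`2 ^ (C h s)` for all but `X / 2 ^ s` of the `N ≤ X`, if `h ≤ s ≤ h ^ 2` and `X ≥ 2 ^ (C h ^ 2 s)`; with `s` of the
order of `h` these are `X ≥ 2 ^ (C h ^ 3)` and the bound `2 ^ (C h ^ 2)`.

Proof (`Pool/Agent/L7h79/GR`, `Pool/Agent/L7h32/GR`, `Pool/Agent/L7h60/GR`, with the parts `S_REC`, `S_BIG`,
`S_RUN` of `Pool/Agent/N333/GR`). The gcds at the odd steps divide the numbers `2 N - n`, and in a run of `2 b`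
gcds of size at least `D` the sums in between have to be at least `D / Y` for half of them, if there is no bad run.
The union bound over the bad runs counts the `N` in a class modulo the least common multiple of the `2 b` gcds
`d_i`, which is the product of the `d_i / gcd (d_i, K_i)` where `K_i` is the least common multiple of the
`gcd (d_i, n_i - n_j)`, `j < i`: a loss of a factor `G = 2 ^ h` for each pair `i, j`, so that `Y ≥ G ^ (2 b)` there
and `b` is of the order of `h`. But `K_i` divides the gcd of `2 N - n_i` with a product of numbers up to `G`, hence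
the divisors `E` of `K_i`, over which one has to sum (`gcd (K_i, d) ≤ ∑ E` over the `E` dividing `K_i` and `d`),
are divisors of `2 N - n_i` with `E ≤ Z = G ^ (2 b)`. By Markov's inequality for all but `X / 2 ^ s` of the `N` all
the numbers `2 N - n`, `n ≤ G` odd, have at most `M = 2 ^ (s + 3 h)` divisors up to `Z`. So for the typical `N` the
loss is only a factor `M` for each gcd, `Y = 2 ^ (6 (s + 3 h) + 60 h)` is enough, and the gcds are of size up to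
`2 ^ (C h s)` instead of `2 ^ (C h ^ 3)`.
-/

set_option autoImplicit false

namespace Pool.Agent.Results.MP_b5e119_nt.CubeRootExponent

open Finset Filter

/-- the recursion of the problem: `a_1 = N - 2`, and
`a_n = a_{n-1} - gcd(a_{n-1}, N - (-1)^n (N - n))` for `n ≥ 2` (and `a_0 = 0`, not used) -/
noncomputable def a (N : ℕ) : ℕ → ℤ
  | 0 => 0
  | 1 => (N : ℤ) - 2
  | (n + 2) => a N (n + 1) - ((Int.gcd (a N (n + 1))
      ((N : ℤ) - (-1) ^ (n + 2) * ((N : ℤ) - ((n + 2 : ℕ) : ℤ))) : ℕ) : ℤ)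

/-- `g_N`: the least `n ≥ 2` with `a_n = 0` -/
noncomputable def g (N : ℕ) : ℕ := sInf {n : ℕ | 2 ≤ n ∧ a N n = 0}

/-- the descent for the parameter `N` is slow, with the constants `c` and `D`: `g_N ≥ exp (c (log N)^(1/3))`, and
`a_n ≥ N - exp (D (log N)^(2/3))` for all `1 ≤ n ≤ exp (c (log N)^(1/3))` -/
def Slow (c D : ℝ) (N : ℕ) : Prop :=
  Real.exp (c * Real.log N ^ (1 / 3 : ℝ)) ≤ g N ∧ ∀ n : ℕ, 1 ≤ n → (n : ℝ) ≤ Real.exp (c * Real.log N ^ (1 / 3 : ℝ)) →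
    (N : ℝ) - Real.exp (D * Real.log N ^ (2 / 3 : ℝ)) ≤ a N n

lemma a_eq (N n : ℕ) : a N n = Pool.Agent.N333.GR.a N n := by
  induction n using Nat.strong_induction_on with
  | _ n ih =>
    match n with
    | 0 => rw [a, Pool.Agent.N333.GR.a]
    | 1 => rw [a, Pool.Agent.N333.GR.a]
    | n + 2 => rw [a, Pool.Agent.N333.GR.a, ih (n + 1) (by omega)]

lemma g_eq (N : ℕ) : g N = Pool.Agent.N333.GR.g N := by
  unfold g Pool.Agent.N333.GR.g
  simp only [a_eq]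

lemma slow_eq (c D : ℝ) (N : ℕ) : Slow c D N ↔ Pool.Agent.L7h79.GR.Slow3 c D N := by
  unfold Slow Pool.Agent.L7h79.GR.Slow3
  simp only [a_eq, g_eq]

open Classical in
theorem main (h s X : ℕ) (hh : 100000000 ≤ h) (hs : h ≤ s) (hs2 : s ≤ h ^ 2)
    (hX : 2 ^ (100000000 * (h ^ 2 * s)) ≤ X) :
    (((Icc 3 X).filter (fun N : ℕ => ¬ (2 ^ h < Pool.Agent.N333.GR.g N ∧ ∀ n, 1 ≤ n → n ≤ 2 ^ h →
      (N : ℤ) - 2 ^ (100000000 * (h * s)) ≤ Pool.Agent.N333.GR.a N n))).card : ℝ) ≤ (X : ℝ) / 2 ^ s := by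
  have h1 := Pool.Agent.L7h79.GR.main1' Pool.Agent.N333.GR.Rec.t_REC Pool.Agent.N333.GR.BIG.t_BIG
    (Pool.Agent.N333.GR.Run.t_RUN Pool.Agent.N333.GR.Dbl.t_DBL)
    (Pool.Agent.L7h79.GR.t_CNT' Pool.Agent.L7h32.GR.wb' Pool.Agent.L7h32.GR.wa')
    Pool.Agent.L7h60.GR.typ h s X (by omega) hs hs2 hX
  refine le_trans ?_ h1
  have h2 : (Icc 3 X).filter (fun N : ℕ => ¬ (2 ^ h < Pool.Agent.N333.GR.g N ∧ ∀ n, 1 ≤ n → n ≤ 2 ^ h →
      (N : ℤ) - 2 ^ (100000000 * (h * s)) ≤ Pool.Agent.N333.GR.a N n)) ⊆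
      (Icc 3 X).filter (fun N : ℕ => ¬ (2 ^ h < Pool.Agent.N333.GR.g N ∧ ∀ n, 1 ≤ n → n ≤ 2 ^ h →
      (N : ℤ) - 2 ^ (10000 * (h * s)) ≤ Pool.Agent.N333.GR.a N n)) := by
    intro N hN
    rw [mem_filter] at hN ⊢
    refine ⟨hN.1, fun hcon => hN.2 ⟨hcon.1, fun n hn1 hn2 => le_trans ?_ (hcon.2 n hn1 hn2)⟩⟩
    have : (2 : ℤ) ^ (10000 * (h * s)) ≤ 2 ^ (100000000 * (h * s)) :=
      pow_le_pow_right₀ (by norm_num) (Nat.mul_le_mul_right _ (by norm_num))
    linarith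
  exact_mod_cast card_le_card h2

open Classical in
/-- (1) There is `C` such that for all `h ≥ C`, all `s` with `h ≤ s ≤ h ^ 2` and all `X ≥ 2 ^ (C h ^ 2 s)`, for all
but at most `X / 2 ^ s` of the `N` with `3 ≤ N ≤ X`: `g_N > 2 ^ h` and `a_n ≥ N - 2 ^ (C h s)` for all `1 ≤ n ≤ 2 ^ h`.
(2) For every `B` there are `c, D > 0` such that for all large `X`, for all but at most
`X exp (- B (log X)^(1/3))` of the `N` with `3 ≤ N ≤ X`: `g_N ≥ exp (c (log N)^(1/3))` and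
`a_n ≥ N - exp (D (log N)^(2/3))` for all `1 ≤ n ≤ exp (c (log N)^(1/3))`. -/
theorem result :
    (∃ C : ℕ, ∀ h s X : ℕ, C ≤ h → h ≤ s → s ≤ h ^ 2 → 2 ^ (C * (h ^ 2 * s)) ≤ X →
      (((Icc 3 X).filter (fun N : ℕ => ¬ (2 ^ h < g N ∧ ∀ n, 1 ≤ n → n ≤ 2 ^ h →
        (N : ℤ) - 2 ^ (C * (h * s)) ≤ a N n))).card : ℝ) ≤ (X : ℝ) / 2 ^ s) ∧
    (∀ B : ℝ, ∃ c D : ℝ, 0 < c ∧ 0 < D ∧ ∀ᶠ X : ℕ in atTop,
      (((Icc 3 X).filter (fun N : ℕ => ¬ Slow c D N)).card : ℝ) ≤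
        (X : ℝ) * Real.exp (-(B * (Real.log X) ^ (1 / 3 : ℝ)))) := by
  simp only [a_eq, g_eq, slow_eq]
  refine ⟨⟨100000000, main⟩, fun B => ?_⟩
  obtain ⟨c, D, hc, hD, h⟩ := Pool.Agent.L7h79.GR.log_form 100000000 main (max B 1) (le_max_right _ _)
  refine ⟨c, D, hc, hD, h.mono fun X hX => hX.trans ?_⟩
  apply mul_le_mul_of_nonneg_left _ (Nat.cast_nonneg X)
  apply Real.exp_le_exp.2
  have h1 : B * (Real.log X) ^ (1 / 3 : ℝ) ≤ max B 1 * (Real.log X) ^ (1 / 3 : ℝ) := by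
    apply mul_le_mul_of_nonneg_right (le_max_left _ _)
    exact Real.rpow_nonneg (Real.log_natCast_nonneg X) _
  linarith

end Pool.Agent.Results.MP_b5e119_nt.CubeRootExponent
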