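import Pool.Agent.L7h79.GD.Main

/-!
# The gcd recursion for Goldbach pairs: the distribution of the defect `N - g_N`

`a N` is the recursion `a_1, a_2, …` of the problem for the parameter `N` and `g N = g_N` its least zero `n ≥ 2`. The
result TypicalDefect bounds the number of the `N ≤ X` with `2 ≤ N - g_N ≤ H` by `C H X / (log X)^2`, summing over all
`h ≤ H` the number of the `N` for which `N - h + 1` and `N + h - 1` are prime. Here the bound is
`C X (log H)^2 / (log X)^2`, for `H ≤ c (log X / log log X)^2`: the number of the possible values `h` for a given `N`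
is one, and not `H`, and the only loss is the probability `(log H / log X)^2` that two numbers without prime factors
up to `H` are prime.

Proof (`Pool/Agent/L7h79/GD`). Put `δ_n = N - n - 1 - a_n`, the sum of the `gcd - 1` over the steps up to `n`. The gcd
at an even step `n` is the gcd of `N - δ` and `n`, at an odd step it is the gcd of `N + δ` and `n + 2 δ`, where
`δ = δ_{n-1}`. A prime factor `p` of `N ± δ` is used at most `2 p` steps later (`Path.wait`), so that all gcds after
the step `4 δ + 1` are one if `δ` is the final value: if `N - g_N ≤ H`, then the path up to the step `T = 4 H + 1`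
determines `g_N` (`Link.fin_path`), and `N - δ_T` and `N + δ_T` are prime. All gcds up to the step `T` divide numbers
up to `z = 6 H + 1`. Put `w = c' log X / log log X`; then `z < w^2`, and the path is determined by the class of `N`
modulo `Q`, a product of powers of the primes up to `w` with `Q ≤ X^(1/4)`, together with the classes of `N` modulo
the primes `p` in `(w, z]` (`Det.det`). For a given path there are only few conditions modulo these primes: either one
class is allowed, if `p` divides one of the gcds, and these `p` are at most `H` in total; or one class is excluded for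
each step `n ≤ z` with `p` dividing `n` (or `n + 2 δ`). So the sum of `(p - |Ok p|) log p / p` over these primes is at
most `z (log z) / w`, that is `c'' log X` (`Size.size`), and the large sieve for the class modulo `Q` with these
conditions, and with the conditions that `N ± δ_T` have no prime factors in `(z, X^(1/64)]`, has a level of
distribution `Z ≤ X^(1/4)` (`LS.ls`: by Markov's inequality for the logarithm of the modulus at least one half of the
sum over all moduli comes from the moduli up to `Z`). Finally the densities of the different paths add up to at most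
one, by the Chinese remainder theorem (`Core.sum_paths`).
-/

set_option autoImplicit false

namespace Pool.Agent.Results.MP_b5e119_nt.DefectDistribution

open Finset Filter

/-- the recursion of the problem: `a_1 = N - 2`, and
`a_n = a_{n-1} - gcd(a_{n-1}, N - (-1)^n (N - n))` for `n ≥ 2` (and `a_0 = 0`, not used) -/
noncomputable def a (N : ℕ) : ℕ → ℤ
  | 0 => 0
  | 1 => (N : ℤ) - 2
  | (n + 2) => a N (n + 1) - ((Int.gcd (a N (n + 1))
      ((N : ℤ) - (-1) ^ (n + 2) * ((N : ℤ) - ((n + 2 : ℕ) : ℤ))) : ℕ) : ℤ)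

/-- `g_N`: the least `n ≥ 2` with `a_n = 0` -/
noncomputable def g (N : ℕ) : ℕ := sInf {n : ℕ | 2 ≤ n ∧ a N n = 0}

lemma a_eq (N n : ℕ) : a N n = Pool.Agent.R105.GD.Gol.aa N n := by
  induction n using Nat.strong_induction_on with
  | _ n ih =>
    match n with
    | 0 => rw [a, Pool.Agent.R105.GD.Gol.aa]
    | 1 => rw [a, Pool.Agent.R105.GD.Gol.aa]
    | n + 2 => rw [a, Pool.Agent.R105.GD.Gol.aa, ih (n + 1) (by omega)]

lemma g_eq (N : ℕ) : g N = Pool.Agent.R105.GD.Gol.gg N := by
  unfold g Pool.Agent.R105.GD.Gol.gg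
  simp only [a_eq]

open Classical in
/-- There are `C, c > 0` such that for all large `X`: (1) for all `H` with `2 ≤ H ≤ c (log X / log log X)^2` at most
`C X (log H / log X)^2` of the `N` with `3 ≤ N ≤ X` satisfy `2 ≤ N - g_N ≤ H`; (2) all but at most
`C X (log log X / log X)^2` of the composite `N` with `3 ≤ N ≤ X` satisfy `N - g_N > c (log X / log log X)^2`. -/
theorem result : ∃ C c : ℝ, 0 < C ∧ 0 < c ∧ ∀ᶠ X : ℕ in atTop,
    (∀ H : ℕ, 2 ≤ H → (H : ℝ) ≤ c * (Real.log X / Real.log (Real.log X)) ^ 2 →
      (((Icc 3 X).filter (fun N : ℕ => g N + 2 ≤ N ∧ N ≤ g N + H)).card : ℝ) ≤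
        C * X * (Real.log H / Real.log X) ^ 2) ∧
    (((Icc 3 X).filter (fun N : ℕ => ¬ N.Prime ∧
      (N : ℝ) - g N ≤ c * (Real.log X / Real.log (Real.log X)) ^ 2)).card : ℝ) ≤
        C * X * (Real.log (Real.log X) / Real.log X) ^ 2 := by
  obtain ⟨C, hC, hcount⟩ := Pool.Agent.L7h79.GD.count
  have hlog : Tendsto (fun X : ℕ => Real.log X) atTop atTop :=
    Real.tendsto_log_atTop.comp tendsto_natCast_atTop_atTop
  have hll : Tendsto (fun X : ℕ => Real.log (Real.log X)) atTop atTop := Real.tendsto_log_atTop.comp hlog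
  have p1 : ∀ᶠ x : ℝ in atTop, 500 * Real.log x ≤ x := by
    have h1 := (Real.isLittleO_log_id_atTop).def (show (0 : ℝ) < 1 / 500 by norm_num)
    filter_upwards [h1, eventually_ge_atTop (1 : ℝ)] with x hx hx1
    rw [Real.norm_eq_abs, Real.norm_eq_abs, id, abs_of_nonneg (by linarith : (0 : ℝ) ≤ x)] at hx
    have := (le_abs_self _).trans hx
    linarith
  refine ⟨4 * C, 1 / 100000, by positivity, by norm_num, ?_⟩
  filter_upwards [hcount, hlog.eventually p1, hll.eventually_ge_atTop 1, hlog.eventually_ge_atTop 1] with X h1 h2 h3 h4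
  obtain ⟨L, hL⟩ : ∃ L : ℝ, L = Real.log X := ⟨_, rfl⟩
  obtain ⟨l, hl⟩ : ∃ l : ℝ, l = Real.log L := ⟨_, rfl⟩
  rw [← hL] at h1 h2 h3 h4 ⊢
  rw [← hl] at h1 h2 h3 ⊢
  have hl0 : 0 < l := by linarith
  have hL0 : 0 < L := by linarith
  have hX0 : (0 : ℝ) ≤ X := Nat.cast_nonneg X
  simp only [g_eq]
  refine ⟨fun H hH hHX => (h1 H hH hHX).trans ?_, ?_⟩
  · have : 0 ≤ C * X * (Real.log H / L) ^ 2 := by positivity
    linarith
  · obtain ⟨H, hH⟩ : ∃ H : ℕ, H = ⌊1 / 100000 * (L / l) ^ 2⌋₊ := ⟨_, rfl⟩
    have hLl : 500 ≤ L / l := by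
      rw [le_div_iff₀ hl0]
      linarith
    have hLl2 : (250000 : ℝ) ≤ (L / l) ^ 2 := by nlinarith
    have hpos : (0 : ℝ) ≤ 1 / 100000 * (L / l) ^ 2 := by positivity
    have hH1 : (H : ℝ) ≤ 1 / 100000 * (L / l) ^ 2 := by rw [hH]; exact Nat.floor_le hpos
    have hH2 : 1 / 100000 * (L / l) ^ 2 < H + 1 := by rw [hH]; exact Nat.lt_floor_add_one _
    have hH3 : 2 ≤ H := by
      rw [hH]
      exact Nat.le_floor (by push_cast; linarith)
    have hHr : (2 : ℝ) ≤ H := by exact_mod_cast hH3
    have h5 := h1 H hH3 hH1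
    have h6 : Real.log H ≤ 2 * l := by
      have h7 : (H : ℝ) ≤ L ^ 2 := by
        have h8 : (L / l) ^ 2 ≤ L ^ 2 := pow_le_pow_left₀ (by positivity) (div_le_self hL0.le h3) 2
        linarith
      have h9 : Real.log H ≤ Real.log (L ^ 2) := Real.log_le_log (by linarith) h7
      rw [Real.log_pow, ← hl] at h9
      exact_mod_cast h9
    have h7 : (Real.log H / L) ^ 2 ≤ 4 * (l / L) ^ 2 := by
      have h8 : (Real.log H / L) ^ 2 ≤ (2 * l / L) ^ 2 := by
        apply pow_le_pow_left₀ (div_nonneg (Real.log_natCast_nonneg H) hL0.le)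
        exact div_le_div_of_nonneg_right h6 hL0.le
      have e : (2 * l / L) ^ 2 = 4 * (l / L) ^ 2 := by ring
      rwa [e] at h8
    have h8 : (Icc 3 X).filter (fun N : ℕ => ¬ N.Prime ∧
        (N : ℝ) - Pool.Agent.R105.GD.Gol.gg N ≤ 1 / 100000 * (L / l) ^ 2) ⊆
        (Icc 3 X).filter (fun N : ℕ => Pool.Agent.R105.GD.Gol.gg N + 2 ≤ N ∧
          N ≤ Pool.Agent.R105.GD.Gol.gg N + H) := by
      intro N hN
      rw [mem_filter, mem_Icc] at hN
      rw [mem_filter, mem_Icc]
      refine ⟨hN.1, ?_, ?_⟩
      · have h9 := Pool.Agent.R105.GD.Gol.defect_comp N hN.1.1 hN.2.1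
        have h10 := (Nat.minFac_prime (show N ≠ 1 by omega)).two_le
        omega
      · have h9 : (N : ℝ) < ((Pool.Agent.R105.GD.Gol.gg N + H + 1 : ℕ) : ℝ) := by
          push_cast
          linarith [hN.2.2]
        have h10 : N < Pool.Agent.R105.GD.Gol.gg N + H + 1 := by exact_mod_cast h9
        omega
    have h9 : (((Icc 3 X).filter (fun N : ℕ => ¬ N.Prime ∧
        (N : ℝ) - Pool.Agent.R105.GD.Gol.gg N ≤ 1 / 100000 * (L / l) ^ 2)).card : ℝ) ≤
        (((Icc 3 X).filter (fun N : ℕ => Pool.Agent.R105.GD.Gol.gg N + 2 ≤ N ∧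
          N ≤ Pool.Agent.R105.GD.Gol.gg N + H)).card : ℝ) := by exact_mod_cast card_le_card h8
    refine h9.trans (h5.trans ?_)
    have h10 := mul_le_mul_of_nonneg_left h7 (by positivity : 0 ≤ C * X)
    linarith

end Pool.Agent.Results.MP_b5e119_nt.DefectDistribution
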