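import Pool.Agent.L7h55.GP.Log2

/-!
# The gcd recursion for Goldbach pairs at the values of polynomials, and in short intervals

`a N` is the recursion `a_1, a_2, …` of the problem for the parameter `N` and `g N = g_N` its least zero `n ≥ 2`. The
result CubeRootExponent gives `g_N ≥ exp (c (log N)^(1/3))` for almost all `N`. Here `N = P(k)` for an integer valued
polynomial `P` of positive degree, for example `k^2`, `k (k + 1) / 2` or `k^5 - k + 7`, which are very sparse sequences,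
and `k` in any interval of length `K`: for `C ≤ h ≤ s ≤ h ^ 2` and `K ≥ 2 ^ (C h^2 s)`, for all but `K / 2 ^ s` of the
`k` the first `2 ^ h` gcds of the recursion for `P(k)` add up to at most `2 ^ (C h s)`. For `P(k) = k` this is the
recursion for the `N` in short intervals.

Proof (`Pool/Agent/L7h55/GP`). The union bound over the bad runs of helper79's proof of CubeRootExponent needs only that
there are at most `(X / L + 1) loss` parameters `N` in the family with `d_i ∣ 2 N - n_i` for all `i`, `L` the least common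
multiple of the `d_i`, where a loss of a factor `A n_i ^ A τ(d_i) ^ κ` for each condition is admissible, as for the
typical `N` the divisors `d_i` of `2 N - n_i` have few divisors. For polynomials this is a count of the roots of
`2 P(x) - n` modulo `d`, which is at most `τ(d) ^ κ |R(n)| ^ 3`, where `R` is a nonzero polynomial such that `P'` divides
`R(2 P)`. The finitely many `n` with `R(n) = 0` do no harm, as the sum of the first `n` gcds is at most `3 ^ n`.
-/

set_option autoImplicit false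

namespace Pool.Agent.Results.MP_b5e119_nt.PolynomialValues

open Finset Filter

/-- the recursion of the problem: `a_1 = N - 2`, and
`a_n = a_{n-1} - gcd(a_{n-1}, N - (-1)^n (N - n))` for `n ≥ 2` (and `a_0 = 0`, not used) -/
noncomputable def a (N : ℕ) : ℕ → ℤ
  | 0 => 0
  | 1 => (N : ℤ) - 2
  | (n + 2) => a N (n + 1) - ((Int.gcd (a N (n + 1))
      ((N : ℤ) - (-1) ^ (n + 2) * ((N : ℤ) - ((n + 2 : ℕ) : ℤ))) : ℕ) : ℤ)

/-- `g_N`: the least `n ≥ 2` with `a_n = 0` -/
noncomputable def g (N : ℕ) : ℕ := sInf {n : ℕ | 2 ≤ n ∧ a N n = 0}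

/-- `P` is an integer valued polynomial of positive degree -/
def IntPoly (P : ℤ → ℤ) : Prop := ∃ F : Polynomial ℚ, 0 < F.natDegree ∧ ∀ k : ℤ, F.eval (k : ℚ) = P k

/-- the descent for the parameter `N` is slow, with the constants `c` and `D` and the size `L`: `g_N ≥ exp (c L^(1/3))`,
and `a_n ≥ N - exp (D L^(2/3))` for all `1 ≤ n ≤ exp (c L^(1/3))` -/
def SlowTo (c D L : ℝ) (N : ℕ) : Prop :=
  Real.exp (c * L ^ (1 / 3 : ℝ)) ≤ g N ∧ ∀ n : ℕ, 1 ≤ n → (n : ℝ) ≤ Real.exp (c * L ^ (1 / 3 : ℝ)) →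
    (N : ℝ) - Real.exp (D * L ^ (2 / 3 : ℝ)) ≤ a N n

lemma a_eq (N n : ℕ) : a N n = Pool.Agent.N333.GR.a N n := by
  induction n using Nat.strong_induction_on with
  | _ n ih =>
    match n with
    | 0 => rw [a, Pool.Agent.N333.GR.a]
    | 1 => rw [a, Pool.Agent.N333.GR.a]
    | n + 2 => rw [a, Pool.Agent.N333.GR.a, ih (n + 1) (by omega)]

lemma g_eq (N : ℕ) : g N = Pool.Agent.N333.GR.g N := by
  unfold g Pool.Agent.N333.GR.g
  simp only [a_eq]

lemma slow_eq (c D L : ℝ) (N : ℕ) : SlowTo c D L N ↔ Pool.Agent.L7h55.GP.SlowTo c D L N := by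
  unfold SlowTo Pool.Agent.L7h55.GP.SlowTo
  simp only [a_eq, g_eq]

open Classical in
/-- Let `P` be an integer valued polynomial of positive degree.
(1) There is `C` such that for all `h ≥ C`, all `s` with `h ≤ s ≤ h ^ 2`, all `K ≥ 2 ^ (C h ^ 2 s)` and all integers `A`: for
all but at most `K / 2 ^ s` of the integers `k` in `(A, A + K]` with `N = P(k) ≥ 2 ^ (C h s)`: `g_N > 2 ^ h` and
`a_n ≥ N - 2 ^ (C h s)` for all `1 ≤ n ≤ 2 ^ h`.
(2) For every `B` there are `c, D > 0` such that for all large `K`, with `L = log K`, and all integers `A`: for all but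
at most `K exp (- B L^(1/3))` of the integers `k` in `(A, A + K]` with `N = P(k) ≥ exp (D L^(2/3))`:
`g_N ≥ exp (c L^(1/3))` and `a_n ≥ N - exp (D L^(2/3))` for all `1 ≤ n ≤ exp (c L^(1/3))`.
(3) If `P(k)` tends to infinity with `k`, then for every `B` there are `c, D > 0` such that for all large `K` and for
all but at most `K exp (- B (log K)^(1/3))` of the natural numbers `k ≤ K`: `N = P(k) ≥ 3`, `g_N ≥ exp (c (log N)^(1/3))`
and `a_n ≥ N - exp (D (log N)^(2/3))` for all `1 ≤ n ≤ exp (c (log N)^(1/3))`. -/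
theorem result (P : ℤ → ℤ) (hP : IntPoly P) :
    (∃ C : ℕ, ∀ (h s K : ℕ) (A : ℤ), C ≤ h → h ≤ s → s ≤ h ^ 2 → 2 ^ (C * (h ^ 2 * s)) ≤ K →
      (((Ioc A (A + K)).filter (fun k => ∃ N : ℕ, (N : ℤ) = P k ∧ 2 ^ (C * (h * s)) ≤ N ∧
        ¬ (2 ^ h < g N ∧ ∀ n, 1 ≤ n → n ≤ 2 ^ h → (N : ℤ) - 2 ^ (C * (h * s)) ≤ a N n))).card : ℝ) ≤
        (K : ℝ) / 2 ^ s) ∧
    (∀ B : ℝ, ∃ c D : ℝ, 0 < c ∧ 0 < D ∧ ∀ᶠ K : ℕ in atTop, ∀ A : ℤ,
      (((Ioc A (A + K)).filter (fun k => ∃ N : ℕ, (N : ℤ) = P k ∧ Real.exp (D * Real.log K ^ (2 / 3 : ℝ)) ≤ N ∧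
        ¬ SlowTo c D (Real.log K) N)).card : ℝ) ≤ (K : ℝ) * Real.exp (-(B * Real.log K ^ (1 / 3 : ℝ)))) ∧
    (Tendsto (fun k : ℕ => P k) atTop atTop → ∀ B : ℝ, ∃ c D : ℝ, 0 < c ∧ 0 < D ∧ ∀ᶠ K : ℕ in atTop,
      (((Icc 1 K).filter (fun k : ℕ => ¬ ∃ N : ℕ, (N : ℤ) = P k ∧ 3 ≤ N ∧ SlowTo c D (Real.log N) N)).card : ℝ) ≤
        (K : ℝ) * Real.exp (-(B * Real.log K ^ (1 / 3 : ℝ)))) := by
  simp only [a_eq, g_eq, slow_eq]
  have h1 := Pool.Agent.L7h55.GP.poly_main (P := P) hP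
  refine ⟨h1, fun B => ?_, fun hlim B => ?_⟩
  · obtain ⟨C, hC⟩ := h1
    obtain ⟨c, D, hc, hD, h⟩ := Pool.Agent.L7h55.GP.log_form' hC |B| (abs_nonneg B)
    refine ⟨c, D, hc, hD, ?_⟩
    filter_upwards [h] with K hK A
    refine (hK A).trans ?_
    apply mul_le_mul_of_nonneg_left _ (Nat.cast_nonneg K)
    apply Real.exp_le_exp.2
    apply neg_le_neg
    exact mul_le_mul_of_nonneg_right (le_abs_self B) (Real.rpow_nonneg (Real.log_natCast_nonneg K) _)
  · obtain ⟨C, hC⟩ := h1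
    obtain ⟨c, D, hc, hD, h⟩ := Pool.Agent.L7h55.GP.log_form' hC (|B| + 1) (by positivity)
    exact Pool.Agent.L7h55.GP.log_form3 hP hlim hc hD h

end Pool.Agent.Results.MP_b5e119_nt.PolynomialValues
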