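import Pool.Agent.L7h55.GP.PS3
import Pool.Agent.L7h55.GP.Met2

/-!
# The gcd recursion for Goldbach pairs near generalised polynomials, and near powers of almost every real

`a N` is the recursion `a_1, a_2, …` of the problem for the parameter `N` and `g N = g_N` its least zero `n ≥ 2`. The
result PolynomialValues gives `g_N ≥ exp (c (log N)^(1/3))` for almost all values `N = P(k)` of a polynomial. Here the
parameters `N` come from sequences without any arithmetic structure and the bound holds for all `N` near their terms at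
once.

(1), (2): `f(t) = ∑ w_x t^x` is a generalised polynomial, with finitely many real exponents `x`, the largest of them
`> 1` and not an integer, with a positive coefficient; for example `t^(3/2)`, `√2 t^π - t^2 + t^(1/2)`, `t^1000.5`. For
almost all `k ≤ K` all the parameters `N` within `exp (B (log K)^(1/3))` of `f(k)` are slow.

(3): for almost every real `x > 1` (Lebesgue) all the parameters `N` within `exp (A v_n^(1/3))` of `x ^ v_n` are slow,
for all large `n`, where `v_n ≥ κ (log n)^3`. For `v_n = n` these are about `log X` windows up to `X`.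

Proof (`Pool/Agent/L7h55/GP`). The union bound over bad runs of PolynomialValues works for all families of parameters
with at most `(X + R L) / L · loss` members divisible by the conditions, for `L` up to a power of `X`. For the integer
parts of `f(k) + b` this is the equidistribution of `f(k) / L` modulo one in the form of a Fejér kernel bound, with the
exponential sums `∑ e(h f(k))` of Weyl and van der Corput (Pool/Agent/N666/PS). For (3) the count of the slow `N ≤ X`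
is combined with a metric argument over `x` (Pool/Agent/R482/ST).
-/

set_option autoImplicit false

namespace Pool.Agent.Results.MP_b5e119_nt.SparseNeighbourhoods

open Finset Filter MeasureTheory

/-- the recursion of the problem: `a_1 = N - 2`, and
`a_n = a_{n-1} - gcd(a_{n-1}, N - (-1)^n (N - n))` for `n ≥ 2` (and `a_0 = 0`, not used) -/
noncomputable def a (N : ℕ) : ℕ → ℤ
  | 0 => 0
  | 1 => (N : ℤ) - 2
  | (n + 2) => a N (n + 1) - ((Int.gcd (a N (n + 1))
      ((N : ℤ) - (-1) ^ (n + 2) * ((N : ℤ) - ((n + 2 : ℕ) : ℤ))) : ℕ) : ℤ)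

/-- `g_N`: the least `n ≥ 2` with `a_n = 0` -/
noncomputable def g (N : ℕ) : ℕ := sInf {n : ℕ | 2 ≤ n ∧ a N n = 0}

/-- the descent for the parameter `N` is slow, with the constants `c` and `D`, with `L = log N`:
`g_N ≥ exp (c L^(1/3))`, and `a_n ≥ N - exp (D L^(2/3))` for all `1 ≤ n ≤ exp (c L^(1/3))` -/
def Slow (c D : ℝ) (N : ℕ) : Prop :=
  Real.exp (c * Real.log N ^ (1 / 3 : ℝ)) ≤ g N ∧
    ∀ n : ℕ, 1 ≤ n → (n : ℝ) ≤ Real.exp (c * Real.log N ^ (1 / 3 : ℝ)) →
      (N : ℝ) - Real.exp (D * Real.log N ^ (2 / 3 : ℝ)) ≤ a N n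

/-- the generalised polynomial `f(t) = ∑ w_x t^x`, `x` in the finite set `F` of real numbers -/
noncomputable def f (F : Finset ℝ) (w : ℝ → ℝ) (t : ℝ) : ℝ := ∑ x ∈ F, w x * t ^ x

/-- the largest exponent `e` of `f` is `> 1` and not an integer, and its coefficient is positive -/
structure Lead (F : Finset ℝ) (w : ℝ → ℝ) (e : ℝ) : Prop where
  mem : e ∈ F
  max : ∀ x ∈ F, x ≤ e
  pos : 0 < w e
  one : 1 < e
  nint : ∀ m : ℕ, e ≠ m

lemma a_eq (N n : ℕ) : a N n = Pool.Agent.N333.GR.a N n := by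
  induction n using Nat.strong_induction_on with
  | _ n ih =>
    match n with
    | 0 => rw [a, Pool.Agent.N333.GR.a]
    | 1 => rw [a, Pool.Agent.N333.GR.a]
    | n + 2 => rw [a, Pool.Agent.N333.GR.a, ih (n + 1) (by omega)]

lemma g_eq (N : ℕ) : g N = Pool.Agent.N333.GR.g N := by
  unfold g Pool.Agent.N333.GR.g
  simp only [a_eq]

lemma slow_eq (c D : ℝ) (N : ℕ) : Slow c D N ↔ Pool.Agent.L7h55.GP.SlowTo c D (Real.log N) N := by
  unfold Slow Pool.Agent.L7h55.GP.SlowTo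
  simp only [a_eq, g_eq]

lemma f_eq (F : Finset ℝ) (w : ℝ → ℝ) (t : ℝ) : f F w t = Pool.Agent.N666.PS.gp F w 0 t := by
  rw [Pool.Agent.N666.PS.gp_zero, f]

open Classical in
/-- (1) Let `f(t) = ∑ w_x t^x` be a generalised polynomial whose largest exponent is `> 1` and not an integer, with a
positive coefficient. There is `C` such that for all `h ≥ C`, all `s` with `h ≤ s ≤ h ^ 2 / 3` and all
`K ≥ 2 ^ (C h ^ 2 s)`, for all but at most `K / 2 ^ s` of the integers `k` in `[K, 2 K)`: all natural numbers `N` with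
`|N - f(k)| ≤ 2 ^ s` have `N ≥ K / 2`, `g_N > 2 ^ h` and `a_n ≥ N - 2 ^ (C h s)` for all `1 ≤ n ≤ 2 ^ h`.
(2) For such `f` and every `B` there are `c, D > 0` such that for all large `K`, with `r = (log K)^(1/3)`, for all but at
most `K exp (- B r)` of the natural numbers `1 ≤ k ≤ K`: all natural numbers `N` with `|N - f(k)| ≤ exp (B r)` have
`N ≥ 3`, `g_N ≥ exp (c (log N)^(1/3))` and `a_n ≥ N - exp (D (log N)^(2/3))` for all `1 ≤ n ≤ exp (c (log N)^(1/3))`.
(3) Let `v_n ≥ κ (log n)^3` for some `κ > 0` and all large `n`. For almost all real `x > 1`, for every `A` there are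
`c, D > 0` such that for all large `n`, all natural numbers `N` with `|N - x ^ v_n| ≤ exp (A v_n^(1/3))` have `N ≥ 3`,
`g_N ≥ exp (c (log N)^(1/3))` and `a_i ≥ N - exp (D (log N)^(2/3))` for all `1 ≤ i ≤ exp (c (log N)^(1/3))`. -/
theorem result :
    (∀ (F : Finset ℝ) (w : ℝ → ℝ) (e : ℝ), Lead F w e →
      (∃ C : ℕ, ∀ h s K : ℕ, C ≤ h → h ≤ s → 3 * s ≤ h ^ 2 → 2 ^ (C * (h ^ 2 * s)) ≤ K →
        (((range K).filter (fun i : ℕ => ∃ N : ℕ, |(N : ℝ) - f F w ((K : ℝ) + i)| ≤ 2 ^ s ∧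
          ¬ (K ≤ 2 * N ∧ 2 ^ h < g N ∧ ∀ n, 1 ≤ n → n ≤ 2 ^ h → (N : ℤ) - 2 ^ (C * (h * s)) ≤ a N n))).card : ℝ) ≤
          (K : ℝ) / 2 ^ s) ∧
      (∀ B : ℝ, ∃ c D : ℝ, 0 < c ∧ 0 < D ∧ ∀ᶠ K : ℕ in atTop,
        (((Icc 1 K).filter (fun k : ℕ => ∃ N : ℕ, |(N : ℝ) - f F w k| ≤ Real.exp (B * Real.log K ^ (1 / 3 : ℝ)) ∧
          ¬ (3 ≤ N ∧ Slow c D N))).card : ℝ) ≤ (K : ℝ) * Real.exp (-(B * Real.log K ^ (1 / 3 : ℝ))))) ∧
    (∀ v : ℕ → ℝ, (∃ κ : ℝ, 0 < κ ∧ ∀ᶠ n : ℕ in atTop, κ * Real.log (n : ℝ) ^ 3 ≤ v n) →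
      ∀ᵐ x : ℝ, 1 < x → ∀ A : ℝ, ∃ c D : ℝ, 0 < c ∧ 0 < D ∧ ∀ᶠ n : ℕ in atTop, ∀ N : ℕ,
        |(N : ℝ) - x ^ (v n)| ≤ Real.exp (A * v n ^ (1 / 3 : ℝ)) → 3 ≤ N ∧ Slow c D N) := by
  simp only [a_eq, g_eq, slow_eq, f_eq]
  refine ⟨fun F w e hL => ?_, fun v hv => Pool.Agent.L7h55.GP.met_final hv⟩
  have hg : Pool.Agent.N666.PS.GH F w e := ⟨hL.mem, hL.max, hL.pos, hL.one, hL.nint⟩
  have h1 := Pool.Agent.L7h55.GP.ps_main hg
  refine ⟨h1, fun B => ?_⟩
  obtain ⟨C, hC⟩ := h1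
  obtain ⟨c, D, hc, hD, h⟩ := Pool.Agent.L7h55.GP.ps_log hg hC |B| (abs_nonneg B)
  refine ⟨c, D, hc, hD, ?_⟩
  filter_upwards [h] with K hK
  have h0 : B * Real.log K ^ (1 / 3 : ℝ) ≤ |B| * Real.log K ^ (1 / 3 : ℝ) :=
    mul_le_mul_of_nonneg_right (le_abs_self B) (Real.rpow_nonneg (Real.log_natCast_nonneg K) _)
  refine le_trans (Nat.cast_le.2 (card_le_card ?_)) (hK.trans ?_)
  · intro k hk
    rw [mem_filter] at hk ⊢
    obtain ⟨hk1, N, hN1, hN2⟩ := hk
    exact ⟨hk1, N, hN1.trans (Real.exp_le_exp.2 h0), hN2⟩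
  · apply mul_le_mul_of_nonneg_left _ (Nat.cast_nonneg K)
    apply Real.exp_le_exp.2
    linarith

end Pool.Agent.Results.MP_b5e119_nt.SparseNeighbourhoods
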